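import Pool.Agent.H63.AC.Defs

/-!
# Derivations in the calculus with binary sums

Port of the first part of `H42/CS/Der`. `Der2 T C k Λ`: the line `Λ` has a derivation (counted as a tree) with
at most `k` lines over the circuit `C`.
-/

set_option autoImplicit false

namespace Pool.Agent.H63.AU

open Pool.Agent.H42.CS (Ax Atom Lit Gate Circuit)
open Pool.Agent.H63.AC (Step Refutation)

variable {Rel : ℕ → Type} {P : Type}

/-- Derivations, counted as trees. -/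
inductive Der2 (T : Set (Ax Rel)) (C : Circuit Rel P) : ℕ → Set (Lit C.N) → Prop
  | mk (k : ℕ) (Λ : Set (Lit C.N)) (Pr : Set (Set (Lit C.N))) (f : Set (Lit C.N) → ℕ)
      (h : ∀ Δ ∈ Pr, Der2 T C (f Δ) Δ) (hs : Step T C Pr Λ)
      (hk : (∑ᶠ Δ ∈ Pr, f Δ) + 1 ≤ k) : Der2 T C k Λ

variable {T : Set (Ax Rel)} {C : Circuit Rel P}

theorem step_mono {Pr Pr' : Set (Set (Lit C.N))} {Λ : Set (Lit C.N)} (h : Pr ⊆ Pr')
    (hs : Step T C Pr Λ) : Step T C Pr' Λ := by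
  cases hs with
  | hyp h1 h2 => exact Step.hyp h1 h2
  | ident h1 h2 h3 => exact Step.ident h1 h2 h3
  | weak h1 h2 => exact Step.weak (h h1) h2
  | cut h1 h2 => exact Step.cut (h h1) (h h2)
  | andI h1 h2 h3 => exact Step.andI h1 h2 fun x hx => h (h3 x hx)
  | andE h1 h2 h3 => exact Step.andE h1 h2 (h h3)
  | cover h1 => exact Step.cover h1
  | unit h1 h2 h3 => exact Step.unit h1 h2 h3
  | sum h1 h2 h3 h4 h5 h6 h7 h8 => exact Step.sum h1 h2 h3 h4 h5 h6 h7 h8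
  | dist h1 h2 h3 h4 h5 h6 h7 h8 => exact Step.dist h1 h2 h3 h4 h5 h6 h7 h8

private theorem fin_lit (N : Type) [Finite N] : Finite (Lit N) :=
  Finite.of_injective (fun x : Lit N => (x.node, x.pos)) (by
    rintro ⟨a, s⟩ ⟨b, t⟩ h
    have h1 : a = b := congrArg Prod.fst h
    have h2 : s = t := congrArg Prod.snd h
    rw [h1, h2])

private theorem card_lit (N : Type) [Finite N] : Nat.card (Lit N) ≤ 2 * Nat.card N := by
  have h1 : Nat.card (N × Bool) = Nat.card N * 2 := by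
    rw [Nat.card_prod, Nat.card_eq_fintype_card (α := Bool), Fintype.card_bool]
  have h2 : Nat.card (Lit N) ≤ Nat.card (N × Bool) :=
    Nat.card_le_card_of_injective (fun x : Lit N => (x.node, x.pos)) (by
      rintro ⟨a, s⟩ ⟨b, t⟩ h
      have h1 : a = b := congrArg Prod.fst h
      have h2 : s = t := congrArg Prod.snd h
      rw [h1, h2])
  omega

private theorem bUnion_le {α β : Type} [Finite β] (A : Finset α) (L : α → Set β) :
    (⋃ x ∈ A, L x).ncard ≤ ∑ x ∈ A, (L x).ncard := by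
  classical
  induction A using Finset.induction_on with
  | empty => simp
  | insert x A hx ih =>
    rw [Finset.set_biUnion_insert, Finset.sum_insert hx]
    exact (Set.ncard_union_le _ _).trans (Nat.add_le_add_left ih _)

private theorem good_ex {k : ℕ} {Λ : Set (Lit C.N)} (h : Der2 T C k Λ) :
    ∃ (L : Set (Set (Lit C.N))) (o : Set (Lit C.N) → ℕ),
      (∀ Λ' ∈ L, Step T C {Δ | Δ ∈ L ∧ o Δ < o Λ'} Λ') ∧ Λ ∈ L ∧ L.ncard ≤ k := by
  classical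
  have hfl : Finite (Lit C.N) := fin_lit _
  induction h with
  | mk k Λ Pr f h hs hk ih =>
    choose L o hgood hmem hcard using ih
    obtain ⟨L', hL'⟩ : ∃ L' : Set (Lit C.N) → Set (Set (Lit C.N)),
        L' = fun Δ => if hΔ : Δ ∈ Pr then L Δ hΔ else ∅ := ⟨_, rfl⟩
    have hL1 : ∀ Δ (hΔ : Δ ∈ Pr), L' Δ = L Δ hΔ := by
      intro Δ hΔ
      rw [hL']
      exact dif_pos hΔ
    obtain ⟨U, hU⟩ : ∃ U : Set (Set (Lit C.N)), U = ⋃ Δ ∈ Pr, L' Δ := ⟨_, rfl⟩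
    have hUm : ∀ Λ', Λ' ∈ U ↔ ∃ (Δ : Set (Lit C.N)) (hΔ : Δ ∈ Pr), Λ' ∈ L Δ hΔ := by
      intro Λ'
      rw [hU]
      simp only [Set.mem_iUnion]
      constructor
      · rintro ⟨Δ, hΔ, h1⟩
        exact ⟨Δ, hΔ, by rwa [hL1 Δ hΔ] at h1⟩
      · rintro ⟨Δ, hΔ, h1⟩
        exact ⟨Δ, hΔ, by rwa [hL1 Δ hΔ]⟩
    obtain ⟨o', ho'⟩ : ∃ o' : Set (Lit C.N) → ℕ, o' = fun Λ' =>
        sInf {n | ∃ (Δ : Set (Lit C.N)) (hΔ : Δ ∈ Pr), Λ' ∈ L Δ hΔ ∧ n = o Δ hΔ Λ'} := ⟨_, rfl⟩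
    have ho1 : ∀ Λ' ∈ U, ∃ (Δ : Set (Lit C.N)) (hΔ : Δ ∈ Pr), Λ' ∈ L Δ hΔ ∧ o' Λ' = o Δ hΔ Λ' := by
      intro Λ' h1
      obtain ⟨Δ, hΔ, h2⟩ := (hUm Λ').1 h1
      have h3 : {n | ∃ (Δ : Set (Lit C.N)) (hΔ : Δ ∈ Pr), Λ' ∈ L Δ hΔ ∧
          n = o Δ hΔ Λ'}.Nonempty := ⟨_, Δ, hΔ, h2, rfl⟩
      have h4 := Nat.sInf_mem h3
      rw [ho']
      exact h4
    have ho2 : ∀ Λ' (Δ : Set (Lit C.N)) (hΔ : Δ ∈ Pr), Λ' ∈ L Δ hΔ → o' Λ' ≤ o Δ hΔ Λ' := by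
      intro Λ' Δ hΔ h1
      rw [ho']
      exact Nat.sInf_le ⟨Δ, hΔ, h1, rfl⟩
    have hgU : ∀ Λ' ∈ U, Step T C {Δ | Δ ∈ U ∧ o' Δ < o' Λ'} Λ' := by
      intro Λ' h1
      obtain ⟨Δ, hΔ, h2, h3⟩ := ho1 Λ' h1
      refine step_mono ?_ (hgood Δ hΔ Λ' h2)
      rintro Λ'' ⟨h4, h5⟩
      refine ⟨(hUm Λ'').2 ⟨Δ, hΔ, h4⟩, ?_⟩
      rw [h3]
      exact (ho2 Λ'' Δ hΔ h4).trans_lt h5
    have hcU : U.ncard ≤ ∑ᶠ Δ ∈ Pr, f Δ := by
      have hPf : Pr.Finite := Set.toFinite Pr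
      rw [finsum_mem_eq_finite_toFinset_sum _ hPf]
      have e : U = ⋃ Δ ∈ hPf.toFinset, L' Δ := by
        rw [hU]
        simp only [Set.Finite.mem_toFinset]
      rw [e]
      refine (bUnion_le _ _).trans (Finset.sum_le_sum fun Δ hΔ => ?_)
      have hΔ' : Δ ∈ Pr := hPf.mem_toFinset.1 hΔ
      rw [hL1 Δ hΔ']
      exact hcard Δ hΔ'
    by_cases hΛ : Λ ∈ U
    · exact ⟨U, o', hgU, hΛ, by omega⟩
    · obtain ⟨M, hM⟩ := (Set.toFinite (Set.range o')).bddAbove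
      have hM' : ∀ Λ', o' Λ' ≤ M := fun Λ' => hM ⟨Λ', rfl⟩
      have hne : ∀ Λ' ∈ U, Λ' ≠ Λ := fun Λ' h1 h2 => hΛ (h2 ▸ h1)
      refine ⟨insert Λ U, fun Λ' => if Λ' = Λ then M + 1 else o' Λ', ?_, Set.mem_insert _ _, ?_⟩
      · rintro Λ' (rfl | h1)
        · refine step_mono ?_ hs
          intro Δ hΔ
          have h2 : Δ ∈ U := (hUm Δ).2 ⟨Δ, hΔ, hmem Δ hΔ⟩
          refine ⟨Or.inr h2, ?_⟩
          beta_reduce
          rw [if_neg (hne Δ h2), if_pos rfl]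
          exact Nat.lt_succ_of_le (hM' Δ)
        · refine step_mono ?_ (hgU Λ' h1)
          rintro Δ ⟨h2, h3⟩
          refine ⟨Or.inr h2, ?_⟩
          beta_reduce
          rw [if_neg (hne Δ h2), if_neg (hne Λ' h1)]
          exact h3
      · exact (Set.ncard_insert_le _ _).trans (by omega)

theorem to_refutation {k : ℕ} (h : Der2 T C k ∅) :
    ∃ R : Refutation T P, R.C = C ∧ R.lines.ncard ≤ k := by
  obtain ⟨L, o, hg, hm, hc⟩ := good_ex h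
  exact ⟨⟨C, L, o, hg, hm⟩, rfl, hc⟩


theorem Der2.mono_k {k k' : ℕ} {Λ : Set (Lit C.N)} (h : Der2 T C k Λ) (hk : k ≤ k') :
    Der2 T C k' Λ := by
  obtain ⟨k, Λ, Pr, f, h1, hs, h2⟩ := h
  exact Der2.mk _ _ Pr f h1 hs (h2.trans hk)

/-- no premise -/
theorem der2_zero {Λ : Set (Lit C.N)} (hs : Step T C ∅ Λ) : Der2 T C 1 Λ := by
  refine Der2.mk 1 Λ ∅ (fun _ => 0) (fun Δ hΔ => absurd hΔ (Set.notMem_empty _)) hs ?_
  simp

/-- one premise -/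
theorem der2_one {k : ℕ} {Δ Λ : Set (Lit C.N)} (h : Der2 T C k Δ) (hs : Step T C {Δ} Λ) :
    Der2 T C (k + 1) Λ := by
  refine Der2.mk _ Λ {Δ} (fun _ => k) ?_ hs ?_
  · rintro _ rfl
    exact h
  · rw [finsum_mem_singleton]

/-- two premises -/
theorem der2_two {k k' : ℕ} {Δ Δ' Λ : Set (Lit C.N)} (h : Der2 T C k Δ) (h' : Der2 T C k' Δ')
    (hs : Step T C {Δ, Δ'} Λ) : Der2 T C (k + k' + 1) Λ := by
  classical
  by_cases he : Δ = Δ'
  · subst he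
    refine (der2_one h (step_mono ?_ hs)).mono_k (by omega)
    intro x hx
    rcases hx with rfl | hx
    · exact rfl
    · exact hx
  · refine Der2.mk _ Λ {Δ, Δ'} (fun X => if X = Δ then k else k') ?_ hs ?_
    · rintro X (rfl | hX)
      · rw [if_pos rfl]
        exact h
      · obtain rfl : X = Δ' := hX
        rw [if_neg (Ne.symm he)]
        exact h'
    · rw [finsum_mem_pair he, if_pos rfl, if_neg (Ne.symm he)]

end Pool.Agent.H63.AU
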