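import Pool.Agent.H63.AU.Sim2
import Pool.Agent.H79.CQ.Upa

/-!
# Short refutations in the calculus with binary sums
-/

set_option autoImplicit false

namespace Pool.Agent.H63.AU

open Pool.Agent.H42.CS (Ax Atom Lit Gate Circuit Der bs Pn)
open Pool.Agent.H63.AC (Step Refutation)
open Pool.Agent.H79.CQ (Nd_card refuted CC Nd T Re rk_le)

theorem card_NX {Rel : ℕ → Type} {P : Type} (C : Circuit Rel P) :
    Nat.card (CX C).N = Nat.card C.N + Nat.card C.N * (Nat.card C.N * (Nat.card C.N + 1)) := by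
  show Nat.card (C.N ⊕ (C.N × C.N × Fin (Nat.card C.N + 1))) = _
  rw [Nat.card_sum, Nat.card_prod, Nat.card_prod, Nat.card_eq_fintype_card (α := Fin _),
    Fintype.card_fin]

/-- **Upper bound.** The axioms `T d` have refutations with binary sums of polynomial size and bounded
depth. -/
theorem upper2 (d : ℕ) : ∃ c : ℕ, ∀ n : ℕ, 2 ≤ n →
    ∃ R : Refutation (T d) (Fin n), R.size ≤ n ^ c ∧ ∀ a, R.C.rank a ≤ 7 := by
  obtain ⟨l, hl⟩ := refuted d
  obtain ⟨c, hc⟩ := Nd_card d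
  refine ⟨3 * c + 2 + (c + 4) * (l + 2) + 1, fun n hn => ?_⟩
  have h1 := hl n (by omega)
  unfold Pool.Agent.H79.CQ.PP Pn at h1
  rw [Set.image_empty] at h1
  have h2 := sim h1
  rw [im_empty] at h2
  obtain ⟨R, hR, hlin⟩ := to_refutation h2
  refine ⟨R, ?_, ?_⟩
  · have hN0 : Nat.card (CC d n).N = Nat.card (Nd d n) := rfl
    have e2 := hc n hn
    have e3 : 1 ≤ n ^ c := Nat.one_le_pow _ _ (by omega)
    have hb : bs (CC d n) ≤ n ^ (c + 4) := by
      have e1 : bs (CC d n) = 2 * Nat.card (Nd d n) + 8 := rfl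
      have e4 : 2 ^ 4 ≤ n ^ 4 := Nat.pow_le_pow_left hn 4
      rw [e1, pow_add]
      nlinarith
    have hb8 : 8 ≤ bs (CC d n) := by unfold bs; omega
    have hlines : R.lines.ncard ≤ n ^ ((c + 4) * (l + 2)) := by
      refine hlin.trans ?_
      have e5 : 3 * Nat.card (CC d n).N + 3 ≤ bs (CC d n) ^ 2 := by
        have e6 : bs (CC d n) = 2 * Nat.card (CC d n).N + 8 := rfl
        have e7 : bs (CC d n) * 8 ≤ bs (CC d n) * bs (CC d n) := Nat.mul_le_mul_left _ hb8
        rw [sq]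
        omega
      calc (3 * Nat.card (CC d n).N + 3) * bs (CC d n) ^ l
          ≤ bs (CC d n) ^ 2 * bs (CC d n) ^ l := Nat.mul_le_mul_right _ e5
        _ = bs (CC d n) ^ (l + 2) := by rw [← pow_add, Nat.add_comm]
        _ ≤ (n ^ (c + 4)) ^ (l + 2) := Nat.pow_le_pow_left hb _
        _ = n ^ ((c + 4) * (l + 2)) := by rw [← pow_mul]
    have hnodes : Nat.card R.C.N ≤ n ^ (3 * c + 2) := by
      rw [hR, card_NX, hN0]
      obtain ⟨x, hx⟩ : ∃ x, x = Nat.card (Nd d n) := ⟨_, rfl⟩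
      obtain ⟨y, hy⟩ : ∃ y, y = n ^ c := ⟨_, rfl⟩
      rw [← hx, ← hy] at e2
      rw [← hy] at e3
      rw [← hx]
      have e8 : n ^ (3 * c + 2) = y * y * y * n ^ 2 := by
        rw [hy]
        ring
      have e9 : 4 ≤ n ^ 2 := by
        calc 4 = 2 ^ 2 := by norm_num
          _ ≤ n ^ 2 := Nat.pow_le_pow_left hn 2
      have e10 : x + x * (x * (x + 1)) ≤ y + y * (y * (y + 1)) := by gcongr
      have e11 : y ≤ y * y * y := by
        calc y = y * 1 * 1 := by ring
          _ ≤ y * y * y := by gcongr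
      have e12 : y * y ≤ y * y * y := Nat.le_mul_of_pos_right _ e3
      calc x + x * (x * (x + 1)) ≤ y + y * (y * (y + 1)) := e10
        _ = y + y * y * y + y * y := by ring
        _ ≤ y * y * y * 4 := by omega
        _ ≤ y * y * y * n ^ 2 := Nat.mul_le_mul_left _ e9
        _ = n ^ (3 * c + 2) := e8.symm
    unfold Refutation.size
    have h3 : n ^ (3 * c + 2) ≤ n ^ (3 * c + 2 + (c + 4) * (l + 2)) :=
      Nat.pow_le_pow_right (by omega) (by omega)
    have h4 : n ^ ((c + 4) * (l + 2)) ≤ n ^ (3 * c + 2 + (c + 4) * (l + 2)) :=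
      Nat.pow_le_pow_right (by omega) (by omega)
    calc Nat.card R.C.N + R.lines.ncard
        ≤ n ^ (3 * c + 2 + (c + 4) * (l + 2)) + n ^ (3 * c + 2 + (c + 4) * (l + 2)) := by omega
      _ = n ^ (3 * c + 2 + (c + 4) * (l + 2)) * 2 := by ring
      _ ≤ n ^ (3 * c + 2 + (c + 4) * (l + 2)) * n := Nat.mul_le_mul_left _ hn
      _ = n ^ (3 * c + 2 + (c + 4) * (l + 2) + 1) := (pow_succ _ _).symm
  · have h3 : ∀ C' : Circuit (Re d) (Fin n), C' = CX (CC d n) → ∀ a, C'.rank a ≤ 7 := by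
      rintro _ rfl (a | a)
      · exact rk_le a
      · exact rk_le a.1
    exact h3 _ hR

end Pool.Agent.H63.AU
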