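import Pool.Agent.H63.AU.Der2
import Pool.Agent.H42.CS.Der

/-!
# The general addition rule is simulated by binary additions

`SD C a p`: the data of an application of the rule `sum` of `H42/CS/Defs` with the conclusion `a` and the
conjunction `p`, with an enumeration `e 0, .., e (m - 1)` of the set `B`. The circuit `CX C` has the new nodes
`(a, p, i)`, `i ≤ card N`: `sym (AA i) (U i)`, `U i` the union of the first `i` sets, `AA i` the set of the sums
of the first `i` numbers. Lines `L i = {¬ e 0, .., ¬ e (i - 1), (a, p, i)}`.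
-/

set_option autoImplicit false

namespace Pool.Agent.H63.AU

open Pool.Agent.H42.CS (Ax Atom Lit Gate Circuit)
open Pool.Agent.H63.AC (Step Refutation)

variable {Rel : ℕ → Type} {P : Type}

/-- The data of an application of the general addition rule. -/
structure SD (C : Circuit Rel P) (a p : C.N) where
  B : Set C.N
  A : C.N → Set ℕ
  A' : Set ℕ
  S : C.N → Set (Lit C.N)
  m : ℕ
  e : ℕ → C.N
  hm : m ≤ Nat.card C.N
  heB : ∀ b, b ∈ B ↔ ∃ i < m, e i = b
  hinj : Set.InjOn e (Set.Iio m)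
  hB : ∀ b ∈ B, C.gate b = .sym (A b) (S b)
  hd : B.PairwiseDisjoint S
  hp : C.gate p = .and ((fun b => ⟨b, true⟩) '' B)
  ha : C.gate a = .sym A' (⋃ b ∈ B, S b)
  hc : ∀ c : C.N → ℕ, (∀ b ∈ B, c b ∈ A b) → ∑ᶠ b ∈ B, c b ∈ A'

private theorem enum {N : Type} [Finite N] (a : N) (B : Set N) :
    ∃ (m : ℕ) (e : ℕ → N), m ≤ Nat.card N ∧ (∀ b, b ∈ B ↔ ∃ i < m, e i = b) ∧
      Set.InjOn e (Set.Iio m) := by
  classical
  have hf : B.Finite := Set.toFinite B
  obtain ⟨l, hl⟩ : ∃ l : List N, l = hf.toFinset.toList := ⟨_, rfl⟩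
  have hmem : ∀ b, b ∈ l ↔ b ∈ B := by
    intro b
    rw [hl, Finset.mem_toList, Set.Finite.mem_toFinset]
  have hnd : l.Nodup := by rw [hl]; exact Finset.nodup_toList _
  refine ⟨l.length, fun i => l.getD i a, ?_, ?_, ?_⟩
  · rw [hl, Finset.length_toList, ← Set.ncard_eq_toFinset_card B hf, ← Set.ncard_univ]
    exact Set.ncard_le_ncard (Set.subset_univ _) (Set.toFinite _)
  · intro b
    rw [← hmem, List.mem_iff_getElem]
    constructor
    · rintro ⟨i, hi, rfl⟩
      exact ⟨i, hi, List.getD_eq_getElem _ _ hi⟩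
    · rintro ⟨i, hi, rfl⟩
      exact ⟨i, hi, (List.getD_eq_getElem _ _ hi).symm⟩
  · intro i hi j hj h
    have hi' : i < l.length := hi
    have hj' : j < l.length := hj
    simp only [List.getD_eq_getElem _ _ hi', List.getD_eq_getElem _ _ hj'] at h
    exact (List.Nodup.getElem_inj_iff hnd).1 h

theorem sd_of {C : Circuit Rel P} {a p : C.N} {B : Set C.N} {A : C.N → Set ℕ} {A' : Set ℕ}
    {S : C.N → Set (Lit C.N)} (hB : ∀ b ∈ B, C.gate b = .sym (A b) (S b))
    (hd : B.PairwiseDisjoint S) (hp : C.gate p = .and ((fun b => ⟨b, true⟩) '' B))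
    (ha : C.gate a = .sym A' (⋃ b ∈ B, S b))
    (hc : ∀ c : C.N → ℕ, (∀ b ∈ B, c b ∈ A b) → ∑ᶠ b ∈ B, c b ∈ A') : Nonempty (SD C a p) := by
  obtain ⟨m, e, h1, h2, h3⟩ := enum a B
  exact ⟨⟨B, A, A', S, m, e, h1, h2, h3, hB, hd, hp, ha, hc⟩⟩

section

variable {C : Circuit Rel P} {a p : C.N} (D : SD C a p)

/-- The union of the first `i` sets. -/
def SD.U (i : ℕ) : Set (Lit C.N) := {x | ∃ j < i, x ∈ D.S (D.e j)}

/-- The sums of the first `i` numbers. -/
def SD.AA (i : ℕ) : Set ℕ :=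
  {n | ∃ c : ℕ → ℕ, (∀ j < i, c j ∈ D.A (D.e j)) ∧ n = ∑ j ∈ Finset.range i, c j}

theorem SD.U_zero : D.U 0 = ∅ := by
  ext x
  constructor
  · rintro ⟨j, hj, -⟩
    omega
  · intro h
    exact absurd h (Set.notMem_empty _)

theorem SD.U_succ (i : ℕ) : D.U (i + 1) = D.U i ∪ D.S (D.e i) := by
  ext x
  constructor
  · rintro ⟨j, hj, hx⟩
    rcases Nat.lt_succ_iff_lt_or_eq.1 hj with h | rfl
    · exact Or.inl ⟨j, h, hx⟩
    · exact Or.inr hx
  · rintro (⟨j, hj, hx⟩ | hx)
    · exact ⟨j, by omega, hx⟩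
    · exact ⟨i, by omega, hx⟩

theorem SD.U_m : D.U D.m = ⋃ b ∈ D.B, D.S b := by
  ext x
  simp only [Set.mem_iUnion, exists_prop]
  constructor
  · rintro ⟨j, hj, hx⟩
    exact ⟨D.e j, (D.heB _).2 ⟨j, hj, rfl⟩, hx⟩
  · rintro ⟨b, hb, hx⟩
    obtain ⟨j, hj, rfl⟩ := (D.heB b).1 hb
    exact ⟨j, hj, hx⟩

theorem SD.U_sub {i : ℕ} (hi : i ≤ D.m) : D.U i ⊆ ⋃ b ∈ D.B, D.S b := by
  rw [← D.U_m]
  rintro x ⟨j, hj, hx⟩
  exact ⟨j, by omega, hx⟩

theorem SD.disj {i : ℕ} (hi : i < D.m) : Disjoint (D.U i) (D.S (D.e i)) := by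
  rw [Set.disjoint_left]
  rintro x ⟨j, hj, hx⟩ hx'
  have h1 : D.e j ∈ D.B := (D.heB _).2 ⟨j, by omega, rfl⟩
  have h2 : D.e i ∈ D.B := (D.heB _).2 ⟨i, hi, rfl⟩
  have h3 : D.e j ≠ D.e i := by
    intro h
    have h4 : j = i := D.hinj (show j < D.m by omega) (show i < D.m from hi) h
    omega
  exact Set.disjoint_left.1 (D.hd h1 h2 h3) hx hx'

theorem SD.AA_zero : 0 ∈ D.AA 0 := ⟨fun _ => 0, fun j hj => by omega, by simp⟩

theorem SD.AA_succ {i n n' : ℕ} (h : n ∈ D.AA i) (h' : n' ∈ D.A (D.e i)) :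
    n + n' ∈ D.AA (i + 1) := by
  obtain ⟨c, hc, rfl⟩ := h
  refine ⟨fun j => if j = i then n' else c j, ?_, ?_⟩
  · intro j hj
    by_cases hji : j = i
    · subst hji
      simp only [if_true]
      exact h'
    · simp only [hji, if_false]
      exact hc j (by omega)
  · rw [Finset.sum_range_succ]
    simp only [if_true]
    congr 1
    refine Finset.sum_congr rfl fun j hj => ?_
    rw [if_neg (by have := Finset.mem_range.1 hj; omega)]

theorem SD.AA_m : D.AA D.m ⊆ D.A' := by
  classical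
  rintro n ⟨c, hc, rfl⟩
  have h1 := D.hc (fun b => if h : ∃ i < D.m, D.e i = b then c h.choose else 0) (by
    intro b hb
    have h := (D.heB b).1 hb
    rw [dif_pos h]
    have h2 := h.choose_spec
    have h3 := hc h.choose h2.1
    rwa [h2.2] at h3)
  have hBI : D.B = D.e '' Set.Iio D.m := by
    ext b
    rw [D.heB]
    constructor
    · rintro ⟨i, hi, rfl⟩
      exact ⟨i, hi, rfl⟩
    · rintro ⟨i, hi, rfl⟩
      exact ⟨i, hi, rfl⟩
  rw [hBI, finsum_mem_image D.hinj] at h1
  have h2 : (Set.Iio D.m : Set ℕ) = ((Finset.range D.m : Finset ℕ) : Set ℕ) := by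
    ext j
    simp
  rw [h2, finsum_mem_coe_finset] at h1
  have h3 : ∑ j ∈ Finset.range D.m,
      (if h : ∃ i < D.m, D.e i = D.e j then c h.choose else 0) = ∑ j ∈ Finset.range D.m, c j := by
    refine Finset.sum_congr rfl fun j hj => ?_
    have hj' : j < D.m := Finset.mem_range.1 hj
    have h : ∃ i < D.m, D.e i = D.e j := ⟨j, hj', rfl⟩
    rw [dif_pos h]
    have h4 := h.choose_spec
    rw [D.hinj h4.1 hj' h4.2]
  rw [← h3]
  exact h1

end

/-! ### The circuit -/

section

variable (C : Circuit Rel P)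

/-- Renaming of the nodes in a label. -/
def gmap {N N' : Type} (g : N → N') : Gate (Atom Rel P) N → Gate (Atom Rel P) N'
  | .var v => .var v
  | .and S => .and (Lit.map g '' S)
  | .sym A S => .sym A (Lit.map g '' S)

/-- The nodes. -/
abbrev NX : Type := C.N ⊕ (C.N × C.N × Fin (Nat.card C.N + 1))

open Classical in
/-- The labels of the nodes. -/
noncomputable def gX : NX C → Gate (Atom Rel P) (NX C)
  | .inl x => gmap Sum.inl (C.gate x)
  | .inr y => if h : Nonempty (SD C y.1 y.2.1) then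
      (if y.2.2.val ≤ h.some.m then
        .sym (h.some.AA y.2.2.val) (Lit.map Sum.inl '' h.some.U y.2.2.val) else .and ∅)
      else .and ∅

/-- The levels of the nodes. -/
def rX : NX C → ℕ
  | .inl x => C.rank x
  | .inr y => C.rank y.1

theorem rX_lt (x : NX C) : ∀ y ∈ (gX C x).children, rX C y.node < rX C x := by
  classical
  intro y hy
  rcases x with x | x
  · have h1 : gX C (.inl x) = gmap Sum.inl (C.gate x) := rfl
    rw [h1] at hy
    have h2 : ∃ z ∈ (C.gate x).children, y = Lit.map Sum.inl z := by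
      cases hg : C.gate x with
      | var v =>
        rw [hg] at hy
        exact absurd hy (Set.notMem_empty _)
      | and S =>
        rw [hg] at hy
        obtain ⟨z, hz, rfl⟩ := hy
        exact ⟨z, hz, rfl⟩
      | sym A S =>
        rw [hg] at hy
        obtain ⟨z, hz, rfl⟩ := hy
        exact ⟨z, hz, rfl⟩
    obtain ⟨z, hz, rfl⟩ := h2
    exact C.rank_lt x z hz
  · by_cases h : Nonempty (SD C x.1 x.2.1)
    · by_cases h' : x.2.2.val ≤ h.some.m
      · have h1 : gX C (.inr x) = .sym (h.some.AA x.2.2.val)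
            (Lit.map Sum.inl '' h.some.U x.2.2.val) := by
          show (if h : Nonempty (SD C x.1 x.2.1) then _ else _) = _
          rw [dif_pos h, if_pos h']
        rw [h1] at hy
        obtain ⟨z, hz, rfl⟩ := hy
        refine C.rank_lt x.1 z ?_
        rw [h.some.ha]
        exact h.some.U_sub h' hz
      · have h1 : gX C (.inr x) = .and ∅ := by
          show (if h : Nonempty (SD C x.1 x.2.1) then _ else _) = _
          rw [dif_pos h, if_neg h']
        rw [h1] at hy
        exact absurd hy (Set.notMem_empty _)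
    · have h1 : gX C (.inr x) = .and ∅ := by
        show (if h : Nonempty (SD C x.1 x.2.1) then _ else _) = _
        rw [dif_neg h]
      rw [h1] at hy
      exact absurd hy (Set.notMem_empty _)

/-- The circuit with the partial sums. -/
noncomputable def CX : Circuit Rel P where
  N := NX C
  fin := inferInstance
  gate := gX C
  rank := rX C
  rank_lt := rX_lt C

end

end Pool.Agent.H63.AU
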