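import Pool.Agent.H63.AU.Sim

/-!
# Simulation

The chain of the lines `L i`, and the simulation of derivations of `H42/CS` by derivations with binary sums.
-/

set_option autoImplicit false

namespace Pool.Agent.H63.AU

open Pool.Agent.H42.CS (Ax Atom Lit Gate Circuit Der)
open Pool.Agent.H63.AC (Step Refutation)

variable {Rel : ℕ → Type} {P : Type} {T : Set (Ax Rel)} {C : Circuit Rel P}

/-- The old nodes. -/
def il (C : Circuit Rel P) (x : C.N) : (CX C).N := (Sum.inl x : NX C)

theorem il_inj : Function.Injective (il C) := Sum.inl_injective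

/-- The image of a set of signed nodes. -/
def im (C : Circuit Rel P) (Λ : Set (Lit C.N)) : Set (Lit (CX C).N) := Lit.map (il C) '' Λ

theorem map_inj : Function.Injective (Lit.map (il C)) := by
  rintro ⟨x, s⟩ ⟨y, t⟩ h
  simp only [Lit.map, Lit.mk.injEq] at h
  rw [il_inj h.1, h.2]

theorem im_inj : Function.Injective (im C) := Set.image_injective.2 map_inj

theorem mem_im {Λ : Set (Lit C.N)} {x : C.N} {s : Bool} (h : (⟨x, s⟩ : Lit C.N) ∈ Λ) :
    (⟨il C x, s⟩ : Lit (CX C).N) ∈ im C Λ := ⟨_, h, rfl⟩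

theorem im_mono {Λ Δ : Set (Lit C.N)} (h : Λ ⊆ Δ) : im C Λ ⊆ im C Δ := Set.image_mono h

theorem gate_inl (x : C.N) : (CX C).gate (il C x) = gmap (il C) (C.gate x) := rfl

theorem gate_and {x : C.N} {S : Set (Lit C.N)} (h : C.gate x = .and S) :
    (CX C).gate (il C x) = .and (im C S) := by
  rw [gate_inl, h]
  rfl

theorem gate_sym {x : C.N} {A : Set ℕ} {S : Set (Lit C.N)} (h : C.gate x = .sym A S) :
    (CX C).gate (il C x) = .sym A (im C S) := by
  rw [gate_inl, h]
  rfl

theorem gate_var {x : C.N} {v : Atom Rel P} (h : C.gate x = .var v) :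
    (CX C).gate (il C x) = .var v := by
  rw [gate_inl, h]
  rfl

theorem im_neg (S : Set (Lit C.N)) : im C (Lit.neg '' S) = Lit.neg '' im C S := by
  unfold im
  rw [Set.image_image, Set.image_image]
  rfl

theorem im_union (S S' : Set (Lit C.N)) : im C (S ∪ S') = im C S ∪ im C S' := Set.image_union _ _ _

theorem im_insert (x : Lit C.N) (S : Set (Lit C.N)) :
    im C (insert x S) = insert (Lit.map (il C) x) (im C S) := Set.image_insert_eq

theorem im_empty : im C ∅ = ∅ := Set.image_empty _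

/-! ### The chain -/

section

variable {a p : C.N} (h : Nonempty (SD C a p))

/-- The nodes of the chain. -/
noncomputable def cn0 (h : Nonempty (SD C a p)) (i : ℕ) : NX C :=
  if hi : i < h.some.m then Sum.inr (a, p, ⟨i, by have := h.some.hm; omega⟩) else Sum.inl a

noncomputable def cn (h : Nonempty (SD C a p)) (i : ℕ) : (CX C).N := cn0 h i

theorem cn_lt {i : ℕ} (hi : i < h.some.m) :
    (CX C).gate (cn h i) = .sym (h.some.AA i) (im C (h.some.U i)) := by
  classical
  have h1 : gX C (cn0 h i) = .sym (h.some.AA i) (Lit.map Sum.inl '' h.some.U i) := by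
    unfold cn0
    rw [dif_pos hi]
    unfold gX
    exact (dif_pos h).trans (if_pos hi.le)
  exact h1

theorem cn_m : cn h h.some.m = il C a := by
  have h1 : cn0 h h.some.m = (Sum.inl a : NX C) := by
    unfold cn0
    rw [dif_neg (lt_irrefl _)]
  exact h1

theorem cn_ex {i : ℕ} (hi : i ≤ h.some.m) :
    ∃ X, (CX C).gate (cn h i) = .sym X (im C (h.some.U i)) ∧ h.some.AA i ⊆ X := by
  rcases Nat.lt_or_eq_of_le hi with hi | rfl
  · exact ⟨_, cn_lt h hi, subset_rfl⟩
  · refine ⟨h.some.A', ?_, h.some.AA_m⟩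
    rw [cn_m, gate_sym h.some.ha, h.some.U_m]

/-- The lines of the chain. -/
def Ln (h : Nonempty (SD C a p)) (i : ℕ) : Set (Lit (CX C).N) :=
  insert ⟨cn h i, true⟩ {x | ∃ j < i, x = ⟨il C (h.some.e j), false⟩}

theorem chain (i : ℕ) (hi : i ≤ h.some.m) : Der2 T (CX C) (3 * i + 1) (Ln h i) := by
  induction i with
  | zero =>
    obtain ⟨X, hX, hA⟩ := cn_ex h hi
    refine der2_zero (Step.cover (S := im C (h.some.U 0)) ?_)
    intro c hc
    refine ⟨cn h 0, X, true, hX, ?_, Set.mem_insert _ _⟩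
    rw [h.some.U_zero, im_empty, Set.ncard_empty] at hc
    obtain rfl : c = 0 := by omega
    simp [hA h.some.AA_zero]
  | succ i ih =>
    have hi' : i < h.some.m := hi
    have h1 := ih (by omega)
    obtain ⟨X, hX, hA⟩ := cn_ex h hi
    have h2 : Der2 T (CX C) (3 * i + 1 + 1) (insert ⟨cn h i, true⟩ (Ln h (i + 1))) := by
      refine der2_one h1 (Step.weak rfl ?_)
      rintro x (rfl | ⟨j, hj, rfl⟩)
      · exact Set.mem_insert _ _
      · exact Or.inr (Or.inr ⟨j, by omega, rfl⟩)
    have heB : h.some.e i ∈ h.some.B := (h.some.heB _).2 ⟨i, hi', rfl⟩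
    have h3 : Der2 T (CX C) 1 (insert ⟨cn h i, false⟩ (Ln h (i + 1))) := by
      refine der2_zero (Step.sum (cn_lt h hi') (gate_sym (h.some.hB _ heB)) ?_ (a := cn h (i + 1))
        (A' := X) ?_ ?_ ?_ ?_ ?_)
      · exact (Set.disjoint_image_iff map_inj).2 (h.some.disj hi')
      · rw [hX, h.some.U_succ, im_union]
      · intro c1 hc1 c2 hc2
        exact hA (h.some.AA_succ hc1 hc2)
      · exact Set.mem_insert _ _
      · exact Or.inr (Or.inr ⟨i, by omega, rfl⟩)
      · exact Or.inr (Set.mem_insert _ _)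
    refine (der2_two h2 h3 (Step.cut (a := cn h i) (Or.inl rfl) (Or.inr rfl))).mono_k (by omega)

include h in
theorem chain_all {Λ : Set (Lit C.N)} (hp : ⟨p, false⟩ ∈ Λ) (ha : ⟨a, true⟩ ∈ Λ) :
    Der2 T (CX C) (3 * Nat.card C.N + 3) (im C Λ) := by
  have h1 := chain (T := T) h h.some.m le_rfl
  have h2 : Der2 T (CX C) (3 * h.some.m + 1 + 1) (im C Λ ∪ Lit.neg '' im C
      ((fun b => (⟨b, true⟩ : Lit C.N)) '' h.some.B)) := by
    refine der2_one h1 (Step.weak rfl ?_)
    rintro x (rfl | ⟨j, hj, rfl⟩)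
    · rw [cn_m]
      exact Or.inl (mem_im ha)
    · right
      rw [← im_neg]
      exact mem_im ⟨⟨h.some.e j, true⟩, ⟨_, (h.some.heB _).2 ⟨j, hj, rfl⟩, rfl⟩, rfl⟩
  refine (der2_one h2 (Step.andE (gate_and h.some.hp) (mem_im hp) rfl)).mono_k ?_
  have := h.some.hm
  omega

end

/-! ### Simulation -/

private theorem fin_lit (N : Type) [Finite N] : Finite (Lit N) :=
  Finite.of_injective (fun x : Lit N => (x.node, x.pos)) (by
    rintro ⟨a, s⟩ ⟨b, t⟩ h
    have h1 : a = b := congrArg Prod.fst h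
    have h2 : s = t := congrArg Prod.snd h
    rw [h1, h2])

private theorem lift_step {M k : ℕ} {Λ : Set (Lit C.N)} {Pr : Set (Set (Lit C.N))}
    {f : Set (Lit C.N) → ℕ} (hM : 1 ≤ M) (ih : ∀ Δ ∈ Pr, Der2 T (CX C) (M * f Δ) (im C Δ))
    (hs : Step T (CX C) (im C '' Pr) (im C Λ)) (hk : (∑ᶠ Δ ∈ Pr, f Δ) + 1 ≤ k) :
    Der2 T (CX C) (M * k) (im C Λ) := by
  classical
  have hfl : Finite (Lit C.N) := fin_lit _
  have hpre : ∀ Δ : Set (Lit C.N), Lit.map (il C) ⁻¹' (im C Δ) = Δ := fun Δ =>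
    Set.preimage_image_eq _ map_inj
  refine Der2.mk _ _ (im C '' Pr) (fun X => M * f (Lit.map (il C) ⁻¹' X)) ?_ hs ?_
  · rintro _ ⟨Δ, hΔ, rfl⟩
    rw [hpre]
    exact ih Δ hΔ
  · rw [finsum_mem_image im_inj.injOn]
    simp only [hpre]
    have hPf : Pr.Finite := Set.toFinite Pr
    rw [finsum_mem_eq_finite_toFinset_sum _ hPf] at hk ⊢
    rw [← Finset.mul_sum]
    calc M * ∑ Δ ∈ hPf.toFinset, f Δ + 1 ≤ M * ∑ Δ ∈ hPf.toFinset, f Δ + M := by omega
      _ = M * (∑ Δ ∈ hPf.toFinset, f Δ + 1) := by ring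
      _ ≤ M * k := Nat.mul_le_mul_left M hk

/-- **Simulation.** -/
theorem sim {k : ℕ} {Λ : Set (Lit C.N)} (h : Der T C k Λ) :
    Der2 T (CX C) ((3 * Nat.card C.N + 3) * k) (im C Λ) := by
  classical
  induction h with
  | mk k Λ Pr f h hs hk ih =>
    have hM : 1 ≤ 3 * Nat.card C.N + 3 := by omega
    cases hs with
    | @hyp A v hA h1 =>
      refine lift_step hM ih (Step.hyp hA (v := v) fun x hx => ?_) hk
      obtain ⟨b, h2, h3⟩ := h1 x hx
      exact ⟨il C b, gate_var h2, mem_im h3⟩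
    | @ident a b h1 h2 h3 =>
      refine lift_step hM ih (Step.ident (a := il C a) (b := il C b) ?_ (mem_im h2)
        (mem_im h3)) hk
      rw [gate_inl, gate_inl, h1]
    | @weak Δ h1 h2 => exact lift_step hM ih (Step.weak ⟨Δ, h1, rfl⟩ (im_mono h2)) hk
    | @cut a h1 h2 =>
      refine lift_step hM ih (Step.cut (a := il C a) ?_ ?_) hk
      · exact ⟨_, h1, im_insert _ _⟩
      · exact ⟨_, h2, im_insert _ _⟩
    | @andI S a h1 h2 h3 =>
      refine lift_step hM ih (Step.andI (gate_and h1) (mem_im h2) ?_) hk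
      rintro _ ⟨x, hx, rfl⟩
      exact ⟨_, h3 x hx, im_insert _ _⟩
    | @andE S a h1 h2 h3 =>
      refine lift_step hM ih (Step.andE (gate_and h1) (mem_im h2) ⟨_, h3, ?_⟩) hk
      rw [im_union, im_neg]
    | @cover S h1 =>
      refine lift_step hM ih (Step.cover (S := im C S) fun c hc => ?_) hk
      rw [show (im C S).ncard = S.ncard from Set.ncard_image_of_injective _ map_inj] at hc
      obtain ⟨b, A, t, h2, h3, h4⟩ := h1 c hc
      exact ⟨il C b, A, t, gate_sym h2, h3, mem_im h4⟩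
    | @unit a A x h1 h2 h3 =>
      have h4 : (CX C).gate (il C a) = .sym A {Lit.map (il C) x} := by
        rw [gate_sym h1]
        unfold im
        rw [Set.image_singleton]
      refine lift_step hM ih (Step.unit h4 (mem_im h2) ?_) hk
      rcases h3 with ⟨h5, h6⟩ | ⟨h5, h6⟩
      · exact Or.inl ⟨h5, ⟨_, h6, rfl⟩⟩
      · exact Or.inr ⟨h5, ⟨_, h6, rfl⟩⟩
    | @sum a p B A A' S h1 h2 h3 h4 h5 h6 h7 =>
      refine (chain_all (sd_of h1 h2 h3 h4 h5) h6 h7).mono_k ?_
      refine Nat.le_mul_of_pos_right _ ?_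
      omega
    | @dist a F J B u A A' h1 h2 h3 h4 h5 h6 h7 h8 =>
      have hpre : ∀ Δ : Set (Lit C.N), Lit.map (il C) ⁻¹' (im C Δ) = Δ := fun Δ =>
        Set.preimage_image_eq _ map_inj
      refine lift_step hM ih (Step.dist (F := im C '' F) (J := J)
        (B := fun j X => il C (B j (Lit.map (il C) ⁻¹' X))) (u := fun j => il C (u j))
        (A := A) (A' := A') (a := il C a) ?_ ?_ ?_ ?_ ?_ ?_ ?_ (mem_im h8)) hk
      · rintro _ ⟨X, hX, rfl⟩ _ ⟨Y, hY, rfl⟩ hne
        have h9 : X ≠ Y := fun h => hne (by rw [h])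
        exact (Set.disjoint_image_iff map_inj).2 (h1 hX hY h9)
      · rintro _ ⟨X, hX, rfl⟩
        rw [show (im C X).ncard = X.ncard from Set.ncard_image_of_injective _ map_inj]
        exact h2 X hX
      · rintro j hj _ ⟨X, hX, rfl⟩
        simp only [hpre]
        exact gate_sym (h3 j hj X hX)
      · intro j hj
        rw [gate_sym (h4 j hj)]
        congr 1
        unfold im
        rw [Set.image_image, Set.image_image]
        refine Set.image_congr fun X _ => ?_
        have h9 : Lit.map (il C) ⁻¹' (Lit.map (il C) '' X) = X := hpre X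
        rw [h9]
        rfl
      · rw [gate_sym h5]
        congr 1
        unfold im
        rw [Set.image_sUnion]
      · intro t ht1 ht2
        refine h6 t ht1 ?_
        rw [ht2]
        exact Set.ncard_image_of_injective _ im_inj
      · intro j hj
        exact mem_im (h7 j hj)

end Pool.Agent.H63.AU
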